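import Mathlib

set_option autoImplicit false

/-!
# Smoothness of a norm whose ball is locally a sublevel set of a smooth convex function
-/

namespace Pool.Agent.TH328

open Set Filter Topology
open scoped ContDiff

/-- a smooth nondecreasing convex function vanishing exactly on `(-∞, 0]` -/
noncomputable def zet (t : ℝ) : ℝ := ∫ x in (0:ℝ)..t, expNegInvGlue x

lemma cont_eng : Continuous expNegInvGlue := (expNegInvGlue.contDiff (n := 0)).continuous

lemma hasDerivAt_zet (t : ℝ) : HasDerivAt zet (expNegInvGlue t) t :=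
  intervalIntegral.integral_hasDerivAt_right (cont_eng.intervalIntegrable _ _)
    (cont_eng.stronglyMeasurableAtFilter _ _) cont_eng.continuousAt

lemma deriv_zet : deriv zet = expNegInvGlue := funext fun t => (hasDerivAt_zet t).deriv

lemma contDiff_zet : ContDiff ℝ ∞ zet := by
  rw [contDiff_infty_iff_deriv]
  refine ⟨fun t => (hasDerivAt_zet t).differentiableAt, ?_⟩
  rw [deriv_zet]
  exact expNegInvGlue.contDiff

lemma mono_eng : Monotone expNegInvGlue := by
  intro x y hxy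
  rcases le_or_gt x 0 with hx | hx
  · rw [expNegInvGlue.zero_of_nonpos hx]
    exact expNegInvGlue.nonneg y
  · have hy : 0 < y := hx.trans_le hxy
    unfold expNegInvGlue
    rw [if_neg (not_le.mpr hx), if_neg (not_le.mpr hy)]
    apply Real.exp_le_exp.mpr
    have := inv_anti₀ hx hxy
    linarith

lemma convex_zet : ConvexOn ℝ univ zet := by
  apply Monotone.convexOn_univ_of_deriv
  · exact fun t => (hasDerivAt_zet t).differentiableAt
  · rw [deriv_zet]; exact mono_eng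

lemma zet_of_nonpos {t : ℝ} (ht : t ≤ 0) : zet t = 0 := by
  unfold zet
  rw [intervalIntegral.integral_symm]
  rw [intervalIntegral.integral_congr (g := fun _ => (0:ℝ))]
  · simp
  · intro x hx
    rw [uIcc_of_le ht] at hx
    exact expNegInvGlue.zero_of_nonpos hx.2

lemma mono_zet : Monotone zet := by
  apply monotone_of_deriv_nonneg
  · exact fun t => (hasDerivAt_zet t).differentiableAt
  · intro t; rw [deriv_zet]; exact expNegInvGlue.nonneg t

lemma zet_nonneg (t : ℝ) : 0 ≤ zet t := by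
  rcases le_or_gt t 0 with h | h
  · rw [zet_of_nonpos h]
  · have := mono_zet h.le
    rwa [zet_of_nonpos le_rfl] at this

lemma strictMono_zet : StrictMonoOn zet (Ici 0) := by
  apply strictMonoOn_of_deriv_pos (convex_Ici 0)
  · exact contDiff_zet.continuous.continuousOn
  · intro t ht
    rw [interior_Ici] at ht
    rw [deriv_zet]
    exact expNegInvGlue.pos_of_pos ht

lemma zet_one_pos : 0 < zet 1 := by
  have := strictMono_zet (mem_Ici.mpr le_rfl) (mem_Ici.mpr zero_le_one) zero_lt_one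
  rwa [zet_of_nonpos le_rfl] at this

lemma le_one_of_zet_le {t : ℝ} (h : zet t ≤ zet 1) : t ≤ 1 := by
  by_contra hc
  push Not at hc
  have := strictMono_zet (mem_Ici.mpr zero_le_one) (mem_Ici.mpr (zero_le_one.trans hc.le)) hc
  linarith

section gaugeSmooth

variable {E : Type*} [NormedAddCommGroup E] [NormedSpace ℝ E]

/-- if the ball `{N ≤ 1}` is near `y` given by `{Φ ≤ c}`, `Φ` convex with `Φ 0 < c`, and `Φ y = c`,
then `N y = 1` -/
lemma norm_eq_one_of_level (N : Seminorm ℝ E) {Φ : E → ℝ} {c : ℝ}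
    (hΦc : ConvexOn ℝ univ Φ) (h0 : Φ 0 < c) {V : Set E}
    (hV : IsOpen V) (hloc : ∀ y ∈ V, N y ≤ 1 ↔ Φ y ≤ c) {y : E} (hy : y ∈ V) (hyc : Φ y = c) :
    N y = 1 := by
  have h1 : N y ≤ 1 := (hloc y hy).mpr hyc.le
  by_contra hne
  have h2 : N y < 1 := lt_of_le_of_ne h1 hne
  have hc : Tendsto (fun t : ℝ => t • y) (𝓝[>] 1) (𝓝 y) := by
    have : ContinuousAt (fun t : ℝ => t • y) 1 := by fun_prop
    have h3 := this.tendsto
    rw [one_smul] at h3
    exact h3.mono_left nhdsWithin_le_nhds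
  have hc2 : Tendsto (fun t : ℝ => t * N y) (𝓝[>] 1) (𝓝 (N y)) := by
    have : ContinuousAt (fun t : ℝ => t * N y) 1 := by fun_prop
    have h3 := this.tendsto
    rw [one_mul] at h3
    exact h3.mono_left nhdsWithin_le_nhds
  obtain ⟨t, ⟨ht1, ht2⟩, ht3⟩ := ((hc.eventually (hV.mem_nhds hy)).and
    (hc2.eventually (gt_mem_nhds h2)) |>.and self_mem_nhdsWithin).exists
  have ht : (1:ℝ) < t := ht3
  have ht0 : 0 < t := by linarith
  have hN : N (t • y) ≤ 1 := by
    rw [map_smul_eq_mul, Real.norm_of_nonneg ht0.le]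
    exact ht2.le
  have hΦ := (hloc _ ht1).mp hN
  have hta : (0:ℝ) ≤ t⁻¹ := by positivity
  have htb : (0:ℝ) ≤ 1 - t⁻¹ := by
    have : t⁻¹ ≤ 1 := inv_le_one_of_one_le₀ ht.le
    linarith
  have htc : t⁻¹ + (1 - t⁻¹) = 1 := by ring
  have hconv := hΦc.2 (mem_univ (t • y)) (mem_univ (0:E)) hta htb htc
  rw [smul_smul, inv_mul_cancel₀ ht0.ne', one_smul, smul_zero, add_zero, smul_eq_mul,
    smul_eq_mul] at hconv
  have hti : t⁻¹ < 1 := inv_lt_one_of_one_lt₀ ht
  have hti0 : 0 < t⁻¹ := by positivity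
  nlinarith

/-- a boundary point of the ball is on the level set -/
lemma level_of_norm_eq_one (N : Seminorm ℝ E) {Φ : E → ℝ} {c : ℝ}
    (hΦ : Continuous Φ) {V : Set E}
    (hV : IsOpen V) (hloc : ∀ y ∈ V, N y ≤ 1 ↔ Φ y ≤ c) {y : E} (hy : y ∈ V) (hyc : N y = 1) :
    Φ y = c := by
  have h1 : Φ y ≤ c := (hloc y hy).mp hyc.le
  by_contra hne
  have h2 : Φ y < c := lt_of_le_of_ne h1 hne
  have hc : Tendsto (fun t : ℝ => t • y) (𝓝[>] 1) (𝓝 y) := by
    have : ContinuousAt (fun t : ℝ => t • y) 1 := by fun_prop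
    have h3 := this.tendsto
    rw [one_smul] at h3
    exact h3.mono_left nhdsWithin_le_nhds
  have hc2 : Tendsto (fun t : ℝ => Φ (t • y)) (𝓝[>] 1) (𝓝 (Φ y)) :=
    (hΦ.tendsto y).comp hc
  obtain ⟨t, ⟨ht1, ht2⟩, ht3⟩ := ((hc.eventually (hV.mem_nhds hy)).and
    (hc2.eventually (gt_mem_nhds h2)) |>.and self_mem_nhdsWithin).exists
  have ht : (1:ℝ) < t := ht3
  have ht0 : 0 < t := by linarith
  have hN : N (t • y) ≤ 1 := (hloc _ ht1).mpr (le_of_lt ht2)
  rw [map_smul_eq_mul, Real.norm_of_nonneg ht0.le, hyc] at hN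
  linarith

/-- the derivative of a convex function at a point above its value at the origin is positive in the
radial direction -/
lemma fderiv_radial_pos {Φ : E → ℝ} (hΦc : ConvexOn ℝ univ Φ) {x : E}
    (hd : DifferentiableAt ℝ Φ x) (h0 : Φ 0 < Φ x) : 0 < fderiv ℝ Φ x x := by
  have hg : HasDerivAt (fun t : ℝ => Φ (t • x)) (fderiv ℝ Φ x x) 1 := by
    have h1 : HasDerivAt (fun t : ℝ => t • x) x 1 := by
      simpa using (hasDerivAt_id (1:ℝ)).smul_const x
    have hd' : HasFDerivAt Φ (fderiv ℝ Φ x) ((1:ℝ) • x) := by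
      rw [one_smul]; exact hd.hasFDerivAt
    exact hd'.comp_hasDerivAt (1:ℝ) h1
  have hconv : ConvexOn ℝ univ (fun t : ℝ => Φ (t • x)) := by
    have := hΦc.comp_linearMap (LinearMap.toSpanSingleton ℝ E x)
    simpa [Function.comp_def, LinearMap.toSpanSingleton_apply] using this
  have := hconv.slope_le_of_hasDerivAt (mem_univ (0:ℝ)) (mem_univ (1:ℝ)) zero_lt_one hg
  rw [slope_def_field] at this
  simp at this
  linarith

variable [CompleteSpace E]

lemma contDiffAt_of_norm_eq_one (N : Seminorm ℝ E) {Φ : E → ℝ} {c : ℝ}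
    (hΦs : ContDiff ℝ ∞ Φ) (hΦc : ConvexOn ℝ univ Φ) (h0 : Φ 0 < c) {V : Set E}
    (hV : IsOpen V) (hloc : ∀ y ∈ V, N y ≤ 1 ↔ Φ y ≤ c) {x : E} (hx : x ∈ V) (hNx : N x = 1) :
    ContDiffAt ℝ ∞ (fun y => N y) x := by
  have hxc : Φ x = c := level_of_norm_eq_one N hΦs.continuous hV hloc hx hNx
  have hrad : 0 < fderiv ℝ Φ x x :=
    fderiv_radial_pos hΦc ((hΦs.differentiable (by simp)) x) (by rw [hxc]; exact h0)
  set G : E × ℝ → ℝ := fun p => Φ (p.2 • p.1) with hG
  have hGs : ContDiff ℝ ∞ G := hΦs.comp (contDiff_snd.smul contDiff_fst)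
  have hGat : ContDiffAt ℝ ∞ G (x, 1) := hGs.contDiffAt
  have hGd : HasFDerivAt G (fderiv ℝ G (x, 1)) (x, 1) :=
    ((hGs.differentiable (by simp)) (x, 1)).hasFDerivAt
  have hinr : ∀ s : ℝ, (fderiv ℝ G (x, 1) ∘L .inr ℝ E ℝ) s = s * fderiv ℝ Φ x x := by
    have h1 : HasFDerivAt (fun s : ℝ => G (x, s)) (fderiv ℝ G (x, 1) ∘L .inr ℝ E ℝ) 1 := by
      have := hGd.comp (1:ℝ) (hasFDerivAt_prodMk_right x (1:ℝ))
      exact this
    have h2 : HasDerivAt (fun s : ℝ => G (x, s)) (fderiv ℝ Φ x x) 1 := by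
      have h1 : HasDerivAt (fun t : ℝ => t • x) x 1 := by
        simpa using (hasDerivAt_id (1:ℝ)).smul_const x
      have hd' : HasFDerivAt Φ (fderiv ℝ Φ x) ((1:ℝ) • x) := by
        rw [one_smul]; exact ((hΦs.differentiable (by simp)) x).hasFDerivAt
      exact hd'.comp_hasDerivAt (1:ℝ) h1
    have h3 := h1.hasDerivAt.unique h2
    intro s
    have h4 : (fderiv ℝ G (x, 1) ∘L .inr ℝ E ℝ) s
        = s * (fderiv ℝ G (x, 1) ∘L .inr ℝ E ℝ) 1 := by
      have := (fderiv ℝ G (x, 1) ∘L .inr ℝ E ℝ).map_smul s 1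
      simpa using this
    rw [h4, h3]
  have hinv : (fderiv ℝ G (x, 1) ∘L .inr ℝ E ℝ).IsInvertible := by
    refine ⟨ContinuousLinearEquiv.smulLeft (Units.mk0 (fderiv ℝ Φ x x) hrad.ne'), ?_⟩
    ext
    rw [hinr]
    simp [Units.smul_def]
  have hne : (∞ : WithTop ℕ∞) ≠ 0 := by simp
  set ψ := hGat.implicitFunction hne hinv with hψ
  have hψs : ContDiffAt ℝ ∞ ψ x := hGat.contDiffAt_implicitFunction hne hinv
  have hψ1 : ψ x = 1 := hGat.implicitFunction_apply_self hne hinv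
  have hψe : ∀ᶠ y in 𝓝 x, G (y, ψ y) = G (x, 1) := hGat.eventually_apply_implicitFunction hne hinv
  have hψpos : ∀ᶠ y in 𝓝 x, 0 < ψ y := by
    have := hψs.continuousAt.tendsto
    rw [hψ1] at this
    exact this.eventually (lt_mem_nhds zero_lt_one)
  have hψV : ∀ᶠ y in 𝓝 x, ψ y • y ∈ V := by
    have h1 : ContinuousAt (fun y => ψ y • y) x := hψs.continuousAt.smul continuousAt_id
    have h2 := h1.tendsto
    rw [hψ1, one_smul] at h2
    exact h2.eventually (hV.mem_nhds hx)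
  have heq : (fun y => N y) =ᶠ[𝓝 x] fun y => (ψ y)⁻¹ := by
    filter_upwards [hψe, hψpos, hψV] with y h1 h2 h3
    have h4 : Φ (ψ y • y) = c := by
      have : Φ (ψ y • y) = Φ ((1:ℝ) • x) := h1
      rw [this, one_smul, hxc]
    have h5 := norm_eq_one_of_level N hΦc h0 hV hloc h3 h4
    rw [map_smul_eq_mul, Real.norm_of_nonneg h2.le] at h5
    exact eq_inv_of_mul_eq_one_right h5
  refine ContDiffAt.congr_of_eventuallyEq ?_ heq
  exact hψs.inv (by rw [hψ1]; exact one_ne_zero)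

end gaugeSmooth

end Pool.Agent.TH328
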