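import Mathlib
import Pool.Agent.TH328.GaugeSmooth

set_option autoImplicit false

/-!
# A `C^∞` norm on `c₀` with dentable unit ball
-/

namespace Pool.Agent.TH328

open Set Filter Topology
open scoped ContDiff

/-- the space `c₀` -/
abbrev C0 := ZeroAtInftyContinuousMap ℕ ℝ

lemma abs_le_norm (x : C0) (j : ℕ) : |x j| ≤ ‖x‖ := by
  rw [← ZeroAtInftyContinuousMap.norm_toBCF_eq_norm]
  exact x.toBCF.norm_coe_le_norm j

lemma norm_le_of (x : C0) {c : ℝ} (hc : 0 ≤ c) (h : ∀ j, |x j| ≤ c) : ‖x‖ ≤ c := by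
  rw [← ZeroAtInftyContinuousMap.norm_toBCF_eq_norm]
  exact (BoundedContinuousFunction.norm_le hc).mpr h

lemma tendsto_zero (x : C0) : Tendsto (fun j => x j) atTop (𝓝 0) := by
  have := x.zero_at_infty'
  rwa [cocompact_eq_cofinite, Nat.cofinite_eq_atTop] at this

/-- evaluation functional -/
noncomputable def ev (j : ℕ) : C0 →L[ℝ] ℝ :=
  LinearMap.mkContinuous
    { toFun := fun x => x j
      map_add' := fun x y => rfl
      map_smul' := fun c x => rfl } 1 (fun x => by simpa using abs_le_norm x j)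

@[simp] lemma ev_apply (j : ℕ) (x : C0) : ev j x = x j := rfl

/-- the unit vectors -/
noncomputable def ee (k : ℕ) : C0 where
  toFun := fun j => if j = k then 1 else 0
  continuous_toFun := continuous_of_discreteTopology
  zero_at_infty' := by
    rw [cocompact_eq_cofinite, Nat.cofinite_eq_atTop]
    refine tendsto_const_nhds.congr' ?_
    filter_upwards [eventually_gt_atTop k] with j hj
    rw [if_neg (by omega)]

lemma ee_apply (k j : ℕ) : ee k j = if j = k then 1 else 0 := rfl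

/-- the radii of the tips -/
noncomputable def ep (k : ℕ) : ℝ := 1 / ((k:ℝ) + 2)

lemma ep_pos (k : ℕ) : 0 < ep k := by unfold ep; positivity

lemma ep_le (k : ℕ) : ep k ≤ 1 / 2 := by
  unfold ep
  apply one_div_le_one_div_of_le (by norm_num)
  have : (0:ℝ) ≤ k := Nat.cast_nonneg k
  linarith

lemma ep_anti {j k : ℕ} (h : j ≤ k) : ep k ≤ ep j := by
  unfold ep
  apply one_div_le_one_div_of_le (by positivity)
  have : (j:ℝ) ≤ k := by exact_mod_cast h
  linarith

noncomputable def al (j k : ℕ) : ℝ := if j = k then 2 / 3 else 1 / (3 - 2 * ep k)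
noncomputable def be (j k : ℕ) : ℝ := if j = k then 0 else 2 * (1 - ep k) / (3 - 2 * ep k)

lemma al_nonneg (j k : ℕ) : 0 ≤ al j k := by
  unfold al
  have := ep_le k
  split_ifs
  · norm_num
  · apply div_nonneg <;> linarith

lemma be_nonneg (j k : ℕ) : 0 ≤ be j k := by
  unfold be
  have := ep_le k
  split_ifs
  · norm_num
  · apply div_nonneg <;> linarith

noncomputable def Lf (j k : ℕ) (s t : ℝ) : C0 →L[ℝ] ℝ := (s * al j k) • ev j + (t * be j k) • ev k

lemma Lf_apply (j k : ℕ) (s t : ℝ) (x : C0) :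
    Lf j k s t x = s * al j k * x j + t * be j k * x k := rfl

noncomputable def qq (j k : ℕ) (s t : ℝ) (x : C0) : ℝ :=
  zet ((ep k / 4)⁻¹ * Lf j k s t x + (1 - (ep k / 4)⁻¹))

lemma qq_nonneg (j k : ℕ) (s t : ℝ) (x : C0) : 0 ≤ qq j k s t x := zet_nonneg _

lemma qq_zero {j k : ℕ} {s t : ℝ} {x : C0} (h : Lf j k s t x ≤ 1 - ep k / 4) :
    qq j k s t x = 0 := by
  apply zet_of_nonpos
  have h1 : 0 < ep k / 4 := by have := ep_pos k; positivity
  have h2 : (ep k / 4)⁻¹ * Lf j k s t x ≤ (ep k / 4)⁻¹ * (1 - ep k / 4) :=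
    mul_le_mul_of_nonneg_left h (by positivity)
  have h3 : (ep k / 4)⁻¹ * (1 - ep k / 4) = (ep k / 4)⁻¹ - 1 := by
    rw [mul_sub, inv_mul_cancel₀ h1.ne', mul_one]
  linarith

lemma Lf_le_of_qq {j k : ℕ} {s t : ℝ} {x : C0} (h : qq j k s t x ≤ zet 1) :
    Lf j k s t x ≤ 1 := by
  have h0 := le_one_of_zet_le h
  have h1 : 0 < ep k / 4 := by have := ep_pos k; positivity
  have h2 : (ep k / 4)⁻¹ * Lf j k s t x ≤ (ep k / 4)⁻¹ * 1 := by linarith
  exact le_of_mul_le_mul_left h2 (by positivity)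

lemma qq_convex (j k : ℕ) (s t : ℝ) : ConvexOn ℝ univ (qq j k s t) := by
  refine ⟨convex_univ, fun x _ y _ a b ha hb hab => ?_⟩
  have h := convex_zet.2 (mem_univ ((ep k / 4)⁻¹ * Lf j k s t x + (1 - (ep k / 4)⁻¹)))
    (mem_univ ((ep k / 4)⁻¹ * Lf j k s t y + (1 - (ep k / 4)⁻¹))) ha hb hab
  refine le_trans (le_of_eq ?_) h
  unfold qq
  congr 1
  rw [map_add, map_smul, map_smul]
  simp only [smul_eq_mul]
  have : b = 1 - a := by linarith
  subst this
  ring

lemma qq_smooth (j k : ℕ) (s t : ℝ) : ContDiff ℝ ∞ (qq j k s t) := by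
  unfold qq
  apply contDiff_zet.comp
  exact (contDiff_const.mul (Lf j k s t).contDiff).add contDiff_const

lemma qq_neg (j k : ℕ) (s t : ℝ) (x : C0) : qq j k s t (-x) = qq j k (-s) (-t) x := by
  unfold qq
  congr 2
  rw [Lf_apply, Lf_apply]
  have h1 : (-x) j = - x j := rfl
  have h2 : (-x) k = - x k := rfl
  rw [h1, h2]
  ring

noncomputable def gg (p : ℕ × ℕ) (x : C0) : ℝ :=
  qq p.1 p.2 1 1 x + qq p.1 p.2 1 (-1) x + qq p.1 p.2 (-1) 1 x + qq p.1 p.2 (-1) (-1) x

lemma gg_nonneg (p : ℕ × ℕ) (x : C0) : 0 ≤ gg p x := by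
  unfold gg
  have h1 := qq_nonneg p.1 p.2 1 1 x
  have h2 := qq_nonneg p.1 p.2 1 (-1) x
  have h3 := qq_nonneg p.1 p.2 (-1) 1 x
  have h4 := qq_nonneg p.1 p.2 (-1) (-1) x
  linarith

lemma gg_neg (p : ℕ × ℕ) (x : C0) : gg p (-x) = gg p x := by
  unfold gg
  simp only [qq_neg, neg_neg]
  ring

lemma gg_convex (p : ℕ × ℕ) : ConvexOn ℝ univ (gg p) :=
  (((qq_convex p.1 p.2 1 1).add (qq_convex p.1 p.2 1 (-1))).add (qq_convex p.1 p.2 (-1) 1)).add
    (qq_convex p.1 p.2 (-1) (-1))

lemma gg_smooth (p : ℕ × ℕ) : ContDiff ℝ ∞ (gg p) :=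
  (((qq_smooth p.1 p.2 1 1).add (qq_smooth p.1 p.2 1 (-1))).add (qq_smooth p.1 p.2 (-1) 1)).add
    (qq_smooth p.1 p.2 (-1) (-1))

lemma Lf_le_abs {j k : ℕ} {s t : ℝ} (hs : s = 1 ∨ s = -1) (ht : t = 1 ∨ t = -1) (x : C0) :
    Lf j k s t x ≤ al j k * |x j| + be j k * |x k| := by
  rw [Lf_apply]
  have ha := al_nonneg j k
  have hb := be_nonneg j k
  have h1 : s * al j k * x j ≤ al j k * |x j| := by
    rcases hs with rfl | rfl
    · rw [one_mul]; exact mul_le_mul_of_nonneg_left (le_abs_self _) ha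
    · have := mul_le_mul_of_nonneg_left (neg_le_abs (x j)) ha
      linarith
  have h2 : t * be j k * x k ≤ be j k * |x k| := by
    rcases ht with rfl | rfl
    · rw [one_mul]; exact mul_le_mul_of_nonneg_left (le_abs_self _) hb
    · have := mul_le_mul_of_nonneg_left (neg_le_abs (x k)) hb
      linarith
  linarith

lemma gg_zero {p : ℕ × ℕ} {x : C0}
    (h : al p.1 p.2 * |x p.1| + be p.1 p.2 * |x p.2| ≤ 1 - ep p.2 / 4) : gg p x = 0 := by
  unfold gg
  rw [qq_zero, qq_zero, qq_zero, qq_zero]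
  · simp
  all_goals
    refine (Lf_le_abs ?_ ?_ x).trans h <;> simp

lemma le_one_of_gg {p : ℕ × ℕ} {x : C0} (h : gg p x ≤ zet 1) :
    al p.1 p.2 * |x p.1| + be p.1 p.2 * |x p.2| ≤ 1 := by
  have h1 := qq_nonneg p.1 p.2 1 1 x
  have h2 := qq_nonneg p.1 p.2 1 (-1) x
  have h3 := qq_nonneg p.1 p.2 (-1) 1 x
  have h4 := qq_nonneg p.1 p.2 (-1) (-1) x
  unfold gg at h
  have k1 := Lf_le_of_qq (j := p.1) (k := p.2) (s := 1) (t := 1) (x := x) (by linarith)
  have k2 := Lf_le_of_qq (j := p.1) (k := p.2) (s := 1) (t := -1) (x := x) (by linarith)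
  have k3 := Lf_le_of_qq (j := p.1) (k := p.2) (s := -1) (t := 1) (x := x) (by linarith)
  have k4 := Lf_le_of_qq (j := p.1) (k := p.2) (s := -1) (t := -1) (x := x) (by linarith)
  rw [Lf_apply] at k1 k2 k3 k4
  rcases abs_cases (x p.1) with ⟨e1, -⟩ | ⟨e1, -⟩ <;> rcases abs_cases (x p.2) with ⟨e2, -⟩ | ⟨e2, -⟩ <;>
    rw [e1, e2] <;> nlinarith

/-- the unit ball of the new norm -/
def DD : Set C0 := {x | ∀ F : Finset (ℕ × ℕ), ∑ p ∈ F, gg p x ≤ zet 1}

lemma gg_le_of_mem {x : C0} (hx : x ∈ DD) (p : ℕ × ℕ) : gg p x ≤ zet 1 := by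
  simpa using hx {p}

lemma abs_le_of_mem {x : C0} (hx : x ∈ DD) (k : ℕ) : |x k| ≤ 3 / 2 := by
  have h := le_one_of_gg (gg_le_of_mem hx (k, k))
  simp only [al, be, if_true] at h
  linarith

lemma pair_le_of_mem {x : C0} (hx : x ∈ DD) {j k : ℕ} (hjk : j ≠ k) :
    |x j| + 2 * (1 - ep k) * |x k| ≤ 3 - 2 * ep k := by
  have h := le_one_of_gg (gg_le_of_mem hx (j, k))
  simp only [al, be, if_neg hjk] at h
  have h1 : 0 < 3 - 2 * ep k := by have := ep_le k; linarith
  rw [div_mul_eq_mul_div, div_mul_eq_mul_div, ← add_div, div_le_one h1] at h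
  linarith

lemma gg_zero_diag {k : ℕ} {x : C0} (h : |x k| ≤ 3 / 2 * (1 - ep k / 4)) : gg (k, k) x = 0 := by
  apply gg_zero
  simp only [al, be, if_true]
  linarith

lemma gg_zero_off {j k : ℕ} (hjk : j ≠ k) {x : C0}
    (h : |x j| + 2 * (1 - ep k) * |x k| ≤ (3 - 2 * ep k) * (1 - ep k / 4)) : gg (j, k) x = 0 := by
  apply gg_zero
  simp only [al, be, if_neg hjk]
  have h1 : 0 < 3 - 2 * ep k := by have := ep_le k; linarith
  rw [div_mul_eq_mul_div, div_mul_eq_mul_div, ← add_div, div_le_iff₀ h1]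
  linarith

lemma sum_convex (F : Finset (ℕ × ℕ)) : ConvexOn ℝ univ (fun x => ∑ p ∈ F, gg p x) := by
  classical
  induction F using Finset.induction_on with
  | empty => simpa using convexOn_const (0:ℝ) convex_univ
  | insert a s ha ih =>
    simp only [Finset.sum_insert ha]
    exact (gg_convex a).add ih

lemma sum_smooth (F : Finset (ℕ × ℕ)) : ContDiff ℝ ∞ (fun x => ∑ p ∈ F, gg p x) :=
  ContDiff.sum fun p _ => gg_smooth p

lemma DD_convex : Convex ℝ DD := by
  intro x hx y hy a b ha hb hab F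
  have := (sum_convex F).2 (mem_univ x) (mem_univ y) ha hb hab
  refine this.trans ?_
  simp only [smul_eq_mul]
  have h1 := mul_le_mul_of_nonneg_left (hx F) ha
  have h2 := mul_le_mul_of_nonneg_left (hy F) hb
  have h3 : a * zet 1 + b * zet 1 = zet 1 := by rw [← add_mul, hab, one_mul]
  linarith

lemma DD_closed : IsClosed DD := by
  have : DD = ⋂ F : Finset (ℕ × ℕ), {x | ∑ p ∈ F, gg p x ≤ zet 1} := by
    ext x; simp [DD]
  rw [this]
  exact isClosed_iInter fun F => isClosed_le (sum_smooth F).continuous continuous_const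

lemma DD_neg {x : C0} (hx : x ∈ DD) : -x ∈ DD := by
  intro F
  simpa [gg_neg] using hx F

lemma mem_DD_of_zero {x : C0} (h : ∀ p, gg p x = 0) : x ∈ DD := by
  intro F
  simp [h, zet_one_pos.le]

lemma ball_subset_DD : Metric.closedBall (0 : C0) (1 / 2) ⊆ DD := by
  intro x hx
  have hn : ‖x‖ ≤ 1 / 2 := by simpa using hx
  apply mem_DD_of_zero
  rintro ⟨j, k⟩
  have hj := (abs_le_norm x j).trans hn
  have hk := (abs_le_norm x k).trans hn
  have e1 := ep_le k
  have e2 := ep_pos k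
  by_cases hjk : j = k
  · subst hjk
    apply gg_zero_diag
    linarith
  · apply gg_zero_off hjk
    have := abs_nonneg (x k)
    nlinarith

lemma zero_mem_DD : (0 : C0) ∈ DD := ball_subset_DD (by simp)

lemma DD_nhds : DD ∈ 𝓝 (0 : C0) :=
  mem_of_superset (Metric.closedBall_mem_nhds 0 (by norm_num)) ball_subset_DD

lemma DD_balanced : Balanced ℝ DD := by
  rw [balanced_iff_smul_mem]
  intro a ha x hx
  rw [Real.norm_eq_abs] at ha
  rcases le_total 0 a with h | h
  · rw [abs_of_nonneg h] at ha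
    exact DD_convex.smul_mem_of_zero_mem zero_mem_DD hx ⟨h, ha⟩
  · rw [abs_of_nonpos h] at ha
    have := DD_convex.smul_mem_of_zero_mem zero_mem_DD (DD_neg hx) (t := -a) ⟨by linarith, ha⟩
    simpa using this

/-- the new norm -/
noncomputable def NN : Seminorm ℝ C0 :=
  gaugeSeminorm DD_balanced DD_convex (absorbent_nhds_zero DD_nhds)

lemma NN_apply (x : C0) : NN x = gauge DD x := rfl

lemma NN_le_one_iff (x : C0) : NN x ≤ 1 ↔ x ∈ DD := by
  rw [NN_apply, gauge_le_one_iff_mem_closure DD_convex DD_nhds, DD_closed.closure_eq]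

lemma NN_le (x : C0) : NN x ≤ 2 * ‖x‖ := by
  rcases eq_or_ne x 0 with rfl | hx
  · simp
  have hn : 0 < ‖x‖ := norm_pos_iff.mpr hx
  have h1 : (1 / (2 * ‖x‖)) • x ∈ DD := by
    apply ball_subset_DD
    rw [mem_closedBall_zero_iff, norm_smul, Real.norm_of_nonneg (by positivity)]
    rw [div_mul_eq_mul_div, one_mul, div_le_div_iff₀ (by positivity) (by norm_num)]
    linarith
  rw [← NN_le_one_iff, map_smul_eq_mul, Real.norm_of_nonneg (by positivity),
    div_mul_eq_mul_div, one_mul, div_le_one (by positivity)] at h1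
  exact h1

lemma le_NN (x : C0) : 2 / 3 * ‖x‖ ≤ NN x := by
  have h : ∀ r : ℝ, NN x < r → ‖x‖ ≤ 3 / 2 * r := by
    intro r hr
    have hr0 : 0 < r := (apply_nonneg NN x).trans_lt hr
    have h1 : r⁻¹ • x ∈ DD := by
      rw [← NN_le_one_iff, map_smul_eq_mul, Real.norm_of_nonneg (by positivity),
        inv_mul_le_iff₀ hr0, mul_one]
      exact hr.le
    have h2 : ‖r⁻¹ • x‖ ≤ 3 / 2 := norm_le_of _ (by norm_num) (abs_le_of_mem h1)
    rw [norm_smul, Real.norm_of_nonneg (by positivity), inv_mul_le_iff₀ hr0] at h2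
    linarith
  have h2 : ‖x‖ ≤ 3 / 2 * NN x := by
    apply le_of_forall_pos_le_add
    intro e he
    have := h (NN x + 2 / 3 * e) (by linarith)
    linarith
  linarith

/-- local finiteness -/
lemma loc_finite {x : C0} (hx : x ∈ DD) :
    ∃ F : Finset (ℕ × ℕ), ∃ r : ℝ, 0 < r ∧ ∀ y ∈ Metric.ball x r, ∀ p, p ∉ F → gg p y = 0 := by
  obtain ⟨K, hK⟩ : ∃ K : ℕ, ∀ k, K ≤ k → |x k| < 1 / 32 := by
    have := (tendsto_zero x).abs
    rw [abs_zero] at this
    exact eventually_atTop.mp (this.eventually (gt_mem_nhds (by norm_num)))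
  have hd : 0 < ep K / 16 := by have := ep_pos K; positivity
  obtain ⟨J, hJ⟩ : ∃ J : ℕ, ∀ k, J ≤ k → |x k| < ep K / 16 := by
    have := (tendsto_zero x).abs
    rw [abs_zero] at this
    exact eventually_atTop.mp (this.eventually (gt_mem_nhds hd))
  refine ⟨Finset.range (max J K) ×ˢ Finset.range K, ep K / 16, hd, ?_⟩
  rintro y hy ⟨j, k⟩ hp
  have hyx : ∀ i, |y i| ≤ |x i| + ep K / 16 := by
    intro i
    have h1 : |(y - x) i| ≤ ep K / 16 := by
      refine (abs_le_norm (y - x) i).trans ?_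
      rw [← dist_eq_norm]
      exact (Metric.mem_ball.mp hy).le
    have h2 : y i = x i + (y - x) i := by
      have : (y - x) i = y i - x i := rfl
      rw [this]; ring
    calc |y i| = |x i + (y - x) i| := by rw [← h2]
      _ ≤ |x i| + |(y - x) i| := abs_add_le _ _
      _ ≤ _ := by linarith
  have eK := ep_le K
  have hj32 := hyx j
  have hk32 := hyx k
  have hjx := abs_le_of_mem hx j
  have hkx := abs_le_of_mem hx k
  have e1 := ep_le k
  have e2 := ep_pos k
  have nk := abs_nonneg (y k)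
  simp only [Finset.mem_product, Finset.mem_range, not_and_or, not_lt] at hp
  rcases le_or_gt K k with hkK | hkK
  · have h3 := hK k hkK
    by_cases hjk : j = k
    · subst hjk
      apply gg_zero_diag
      linarith
    · apply gg_zero_off hjk
      nlinarith
  · have hjJ : max J K ≤ j := by
      rcases hp with h | h
      · exact h
      · omega
    have hjk : j ≠ k := by
      have := le_max_right J K
      omega
    have h3 := hJ j ((le_max_left J K).trans hjJ)
    have h4 : ep K ≤ ep k := ep_anti hkK.le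
    apply gg_zero_off hjk
    nlinarith

lemma NN_smooth_unit {x : C0} (hx : NN x = 1) : ContDiffAt ℝ ∞ (fun y => NN y) x := by
  classical
  have hxD : x ∈ DD := (NN_le_one_iff x).mp hx.le
  obtain ⟨F, r, hr, hF⟩ := loc_finite hxD
  refine contDiffAt_of_norm_eq_one NN (Φ := fun y => ∑ p ∈ F, gg p y) (c := zet 1)
    (sum_smooth F) (sum_convex F) ?_ (V := Metric.ball x r) Metric.isOpen_ball ?_
    (Metric.mem_ball_self hr) hx
  · have : ∀ p, gg p (0:C0) = 0 := by
      rintro ⟨j, k⟩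
      have e1 := ep_le k
      by_cases hjk : j = k
      · subst hjk
        apply gg_zero_diag
        simp
        linarith
      · apply gg_zero_off hjk
        simp
        nlinarith
    simp only [this, Finset.sum_const_zero]
    exact zet_one_pos
  · intro y hy
    rw [NN_le_one_iff]
    constructor
    · intro h; exact h F
    · intro h G
      refine le_trans ?_ h
      have h1 : ∑ p ∈ G, gg p y ≤ ∑ p ∈ G ∪ F, gg p y :=
        Finset.sum_le_sum_of_subset_of_nonneg Finset.subset_union_left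
          (fun p _ _ => gg_nonneg p y)
      have h2 : ∑ p ∈ F, gg p y = ∑ p ∈ G ∪ F, gg p y :=
        Finset.sum_subset Finset.subset_union_right (fun p _ hp => hF y hy p hp)
      simp only [h2]
      exact h1

lemma NN_smooth {x : C0} (hx : x ≠ 0) : ContDiffAt ℝ ∞ (fun y => NN y) x := by
  have hn : 0 < ‖x‖ := norm_pos_iff.mpr hx
  have hN : 0 < NN x := lt_of_lt_of_le (by positivity) (le_NN x)
  have h1 : NN ((NN x)⁻¹ • x) = 1 := by
    rw [map_smul_eq_mul, Real.norm_of_nonneg (by positivity), inv_mul_cancel₀ hN.ne']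
  have h2 := NN_smooth_unit h1
  have h3 : (fun y => NN y) = fun y => NN x * NN ((NN x)⁻¹ • y) := by
    funext y
    rw [map_smul_eq_mul, Real.norm_of_nonneg (by positivity), ← mul_assoc,
      mul_inv_cancel₀ hN.ne', one_mul]
  rw [h3]
  apply contDiffAt_const.mul
  have h4 : ContDiffAt ℝ ∞ (fun y : C0 => (NN x)⁻¹ • y) x := by
    have := ((NN x)⁻¹ • ContinuousLinearMap.id ℝ C0).contDiff (n := ∞) |>.contDiffAt (x := x)
    exact this
  exact ContDiffAt.comp x h2 h4

lemma tip_mem (k : ℕ) : (3 / 2 * (1 - ep k / 4)) • ee k ∈ DD := by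
  apply mem_DD_of_zero
  have hk1 := ep_le k
  have hk2 := ep_pos k
  have hval : ∀ i, ((3 / 2 * (1 - ep k / 4)) • ee k) i
      = if i = k then 3 / 2 * (1 - ep k / 4) else 0 := by
    intro i
    have : ((3 / 2 * (1 - ep k / 4)) • ee k) i = (3 / 2 * (1 - ep k / 4)) * ee k i := rfl
    rw [this, ee_apply]
    split_ifs <;> ring
  rintro ⟨i, l⟩
  have e1 := ep_le l
  have e2 := ep_pos l
  by_cases hil : i = l
  · subst hil
    apply gg_zero_diag
    rw [hval]
    split_ifs with h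
    · subst h
      rw [abs_of_nonneg (by nlinarith)]
    · rw [abs_zero]; nlinarith
  · apply gg_zero_off hil
    rw [hval, hval]
    by_cases h1 : i = k
    · subst h1
      rw [if_pos rfl, if_neg (fun h => hil h.symm), abs_zero, mul_zero, add_zero,
        abs_of_nonneg (by nlinarith)]
      nlinarith
    · rw [if_neg h1, abs_zero, zero_add]
      by_cases h2 : l = k
      · subst h2
        rw [if_pos rfl, abs_of_nonneg (by nlinarith)]
        nlinarith
      · rw [if_neg h2, abs_zero, mul_zero]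
        nlinarith

lemma dentable (ε : ℝ) (hε : 0 < ε) :
    ∃ x : C0, NN x ≤ 1 ∧ x ∉ closure (convexHull ℝ ({y : C0 | NN y ≤ 1} \ Metric.ball x ε)) := by
  obtain ⟨k, hk⟩ : ∃ k : ℕ, 3 * ep k < ε := by
    obtain ⟨k, hk⟩ := exists_nat_gt (3 / ε)
    refine ⟨k, ?_⟩
    unfold ep
    rw [div_lt_iff₀ hε] at hk
    rw [mul_one_div, div_lt_iff₀ (by positivity)]
    nlinarith
  have hk1 := ep_le k
  have hk2 := ep_pos k
  refine ⟨(3 / 2 * (1 - ep k / 4)) • ee k, (NN_le_one_iff _).mpr (tip_mem k), ?_⟩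
  set z : C0 := (3 / 2 * (1 - ep k / 4)) • ee k with hz
  have hval : ∀ i, z i = if i = k then 3 / 2 * (1 - ep k / 4) else 0 := by
    intro i
    have : z i = (3 / 2 * (1 - ep k / 4)) * ee k i := rfl
    rw [this, ee_apply]
    split_ifs <;> ring
  have hH : closure (convexHull ℝ ({y : C0 | NN y ≤ 1} \ Metric.ball z ε))
      ⊆ {y : C0 | ev k y ≤ 3 / 2 - ep k} := by
    apply closure_minimal
    · apply convexHull_min
      · rintro y ⟨hy1, hy2⟩
        have hyD : y ∈ DD := (NN_le_one_iff y).mp hy1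
        by_contra hc
        simp only [mem_ofPred_eq, not_le, ev_apply] at hc
        apply hy2
        rw [Metric.mem_ball, dist_eq_norm]
        refine lt_of_le_of_lt (norm_le_of (y - z) (c := 3 * ep k) (by positivity) ?_) hk
        intro i
        have hyz : (y - z) i = y i - z i := rfl
        rw [hyz, hval]
        have hyk := (le_abs_self (y k)).trans (abs_le_of_mem hyD k)
        by_cases hik : i = k
        · subst hik
          rw [if_pos rfl, abs_le]
          constructor <;> nlinarith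
        · rw [if_neg hik, sub_zero]
          have h1 := pair_le_of_mem hyD hik
          have h2 : 3 / 2 - ep k ≤ |y k| := hc.le.trans (le_abs_self _)
          nlinarith
      · exact convex_halfSpace_le (ev k).toLinearMap.isLinear _
    · exact isClosed_le (ev k).continuous continuous_const
  intro hmem
  have h1 := hH hmem
  simp only [mem_ofPred_eq, ev_apply] at h1
  rw [hval, if_pos rfl] at h1
  linarith

theorem main :
    ∃ (N : Seminorm ℝ (ZeroAtInftyContinuousMap ℕ ℝ)) (a b : ℝ),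
      0 < a ∧ 0 < b ∧
      (∀ x : ZeroAtInftyContinuousMap ℕ ℝ, a * ‖x‖ ≤ N x ∧ N x ≤ b * ‖x‖) ∧
      ContDiffOn ℝ ∞ (fun x : ZeroAtInftyContinuousMap ℕ ℝ => N x)
        ({0}ᶜ : Set (ZeroAtInftyContinuousMap ℕ ℝ)) ∧
      ∀ ε : ℝ, 0 < ε →
        ∃ x : ZeroAtInftyContinuousMap ℕ ℝ, N x ≤ 1 ∧
          x ∉ closure (convexHull ℝ
            ({y : ZeroAtInftyContinuousMap ℕ ℝ | N y ≤ 1} \ Metric.ball x ε)) :=
  ⟨NN, 2 / 3, 2, by norm_num, by norm_num, fun x => ⟨le_NN x, NN_le x⟩,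
    fun x hx => (NN_smooth (by simpa using hx)).contDiffWithinAt, dentable⟩

end Pool.Agent.TH328
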