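import Pool.Agent.TH806.LK.Defs

set_option autoImplicit false

/-!
LK project (helper806), job ALG: closure properties of polynomials in `z` and `conj z`, and the
multiplicativity of the weight `wF` over disjoint sets of primes.
-/

namespace Pool.Agent.TH328.LK_ALG

open Finset Filter Topology MeasureTheory Complex
open Pool.Agent.W184.NZ
open Pool.Agent.TH806.LK

/-- one-variable polynomials with exponential coefficients -/
def EP (K : ℕ) (S : ℝ) (f : ℂ → ℂ) : Prop := ∃ p : Polynomial ℂ, p.natDegree ≤ K ∧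
  (∀ k, ‖p.coeff k‖ ≤ S ^ k / (k.factorial : ℝ)) ∧ ∀ z, f z = p.eval z

lemma EP.mono {K K' : ℕ} {S S' : ℝ} {f : ℂ → ℂ} (hf : EP K S f) (hK : K ≤ K') (hS : 0 ≤ S)
    (hSS : S ≤ S') : EP K' S' f := by
  obtain ⟨p, h1, h2, h3⟩ := hf
  refine ⟨p, h1.trans hK, fun k => (h2 k).trans ?_, h3⟩
  gcongr

lemma add_pow_div (S S' : ℝ) (k : ℕ) :
    ∑ x ∈ antidiagonal k, S ^ x.1 / (x.1.factorial : ℝ) * (S' ^ x.2 / (x.2.factorial : ℝ)) =
      (S + S') ^ k / (k.factorial : ℝ) := by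
  rw [(Commute.all S S').add_pow', sum_div]
  refine sum_congr rfl fun x hx => ?_
  rw [HasAntidiagonal.mem_antidiagonal] at hx
  have h1 : ((k.choose x.1 : ℕ) : ℝ) * (x.1.factorial : ℝ) * (x.2.factorial : ℝ) = k.factorial := by
    rw [← hx]
    have := Nat.choose_mul_factorial_mul_factorial (Nat.le_add_right x.1 x.2)
    rw [Nat.add_sub_cancel_left] at this
    exact_mod_cast this
  have a1 : (x.1.factorial : ℝ) ≠ 0 := by positivity
  have a2 : (x.2.factorial : ℝ) ≠ 0 := by positivity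
  have a3 : (k.factorial : ℝ) ≠ 0 := by positivity
  rw [nsmul_eq_mul]
  rw [div_mul_div_comm, div_eq_div_iff (by positivity) a3, ← h1]
  ring

lemma EP.mul {K K' : ℕ} {S S' : ℝ} {f g : ℂ → ℂ} (hf : EP K S f) (hg : EP K' S' g) (hS : 0 ≤ S) :
    EP (K + K') (S + S') (fun z => f z * g z) := by
  obtain ⟨p, h1, h2, h3⟩ := hf
  obtain ⟨q, g1, g2, g3⟩ := hg
  refine ⟨p * q, Polynomial.natDegree_mul_le.trans (add_le_add h1 g1), fun k => ?_, fun z => ?_⟩
  · rw [Polynomial.coeff_mul, ← add_pow_div]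
    refine (norm_sum_le _ _).trans (sum_le_sum fun x _ => ?_)
    rw [norm_mul]
    exact mul_le_mul (h2 _) (g2 _) (norm_nonneg _) (by positivity)
  · simp only [h3, g3, Polynomial.eval_mul]

lemma EP_NC (K : ℕ) {a : ℂ} {S : ℝ} (ha : ‖a‖ ≤ S) : EP K S (fun z => NC K a z) := by
  have hS : 0 ≤ S := (norm_nonneg _).trans ha
  refine ⟨∑ k ∈ range (K + 1), Polynomial.monomial k (a ^ k / (k.factorial : ℂ)), ?_, fun k => ?_, fun z => ?_⟩
  · refine Polynomial.natDegree_sum_le_of_forall_le _ _ fun k hk => ?_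
    exact (Polynomial.natDegree_monomial_le _).trans (by have := mem_range.mp hk; omega)
  · rw [Polynomial.finsetSum_coeff]
    simp only [Polynomial.coeff_monomial]
    rw [Finset.sum_ite_eq' (range (K + 1)) k (fun j => a ^ j / (j.factorial : ℂ))]
    split_ifs
    · rw [norm_div, norm_pow, Complex.norm_natCast]
      gcongr
    · rw [norm_zero]; positivity
  · show NC K a z = _
    rw [Polynomial.eval_finsetSum]
    unfold NC
    simp only [Polynomial.eval_monomial]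

lemma EP_mon (K : ℕ) (hK : 1 ≤ K) {a : ℂ} (ha : ‖a‖ ≤ 1 / 2) :
    EP (K + 1) 1 (fun z => z * (a ^ K / (K.factorial : ℂ) * z ^ K)) := by
  refine ⟨Polynomial.monomial (K + 1) (a ^ K / (K.factorial : ℂ)), Polynomial.natDegree_monomial_le _,
    fun k => ?_, fun z => ?_⟩
  · rw [Polynomial.coeff_monomial]
    split_ifs with h
    · rw [← h, norm_div, norm_pow, Complex.norm_natCast, one_pow, Nat.factorial_succ]
      have h1 : ‖a‖ ^ K ≤ (1 / 2) ^ K := by gcongr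
      have h2 : ((K + 1 : ℕ) : ℝ) ≤ 2 ^ K := by
        have := Nat.lt_two_pow_self (n := K)
        exact_mod_cast this
      rw [div_le_div_iff₀ (by positivity) (by positivity)]
      push_cast at h2 ⊢
      have hf : (0:ℝ) < K.factorial := by positivity
      calc ‖a‖ ^ K * (((K:ℝ) + 1) * K.factorial) ≤ (1 / 2) ^ K * (2 ^ K * K.factorial) := by gcongr
        _ = 1 * K.factorial := by
          rw [← mul_assoc, ← mul_pow]; norm_num
    · rw [norm_zero]; positivity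
  · rw [Polynomial.eval_monomial]; ring

/-- product of a polynomial in `z` and one in `conj z` -/
lemma Fc_prod {K : ℕ} (p q : Polynomial ℂ) (hp : p.natDegree ≤ K) (hq : q.natDegree ≤ K) (z : ℂ) :
    p.eval z * q.eval (starRingEnd ℂ z) = Fc K (fun k l => p.coeff k * q.coeff l) z := by
  rw [Polynomial.eval_eq_sum_range' (by omega : p.natDegree < K + 1),
    Polynomial.eval_eq_sum_range' (by omega : q.natDegree < K + 1), sum_mul_sum, Fc]
  refine sum_congr rfl fun k _ => sum_congr rfl fun l _ => ?_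
  ring

lemma EB_of_EP {K : ℕ} {S : ℝ} {f g : ℂ → ℂ} (hf : EP K S f) (hg : EP K S g) (hS : 0 ≤ S) :
    EB K S (fun z => f z * g (starRingEnd ℂ z)) := by
  obtain ⟨p, h1, h2, h3⟩ := hf
  obtain ⟨q, g1, g2, g3⟩ := hg
  refine ⟨fun k l => p.coeff k * q.coeff l, fun k l => ?_, fun z => ?_⟩
  · rw [norm_mul]
    exact mul_le_mul (h2 _) (g2 _) (norm_nonneg _) (by positivity)
  · simp only [h3, g3]
    exact Fc_prod p q h1 g1 z

lemma pow_div_le_exp {S : ℝ} (hS : 0 ≤ S) (k : ℕ) : S ^ k / (k.factorial : ℝ) ≤ Real.exp S :=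
  Real.pow_div_factorial_le_exp S hS k

lemma exp_le_two_pow {x : ℝ} {K : ℕ} (h : x ≤ 0.69 * K) : Real.exp x ≤ 2 ^ K := by
  have h2 := Real.log_two_gt_d9
  have h3 : x ≤ K * Real.log 2 := by
    have : (0:ℝ) ≤ K := Nat.cast_nonneg K
    nlinarith
  calc Real.exp x ≤ Real.exp (K * Real.log 2) := Real.exp_le_exp.mpr h3
    _ = 2 ^ K := by rw [Real.exp_nat_mul, Real.exp_log (by norm_num)]

lemma PB_of_EP {K : ℕ} {S S' : ℝ} {f g : ℂ → ℂ} (hf : EP K S f) (hg : EP K S' g) (hS : 0 ≤ S) (hS' : 0 ≤ S')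
    (h : S + S' ≤ 0.69 * K) : PB K (fun z => f z * g (starRingEnd ℂ z)) := by
  obtain ⟨p, h1, h2, h3⟩ := hf
  obtain ⟨q, g1, g2, g3⟩ := hg
  refine ⟨fun k l => p.coeff k * q.coeff l, fun k l => ?_, fun z => ?_⟩
  · rw [norm_mul]
    refine le_trans ?_ (exp_le_two_pow h)
    rw [Real.exp_add]
    exact mul_le_mul ((h2 _).trans (pow_div_le_exp hS k)) ((g2 _).trans (pow_div_le_exp hS' l))
      (norm_nonneg _) (Real.exp_pos _).le
  · simp only [h3, g3]
    exact Fc_prod p q h1 g1 z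

lemma Fc_ext {K K' : ℕ} (h : K ≤ K') (c : ℕ → ℕ → ℂ) (z : ℂ) :
    Fc K c z = Fc K' (fun k l => if k ≤ K ∧ l ≤ K then c k l else 0) z := by
  unfold Fc
  have e1 : range (K + 1) ⊆ range (K' + 1) := range_subset_range.mpr (by omega)
  rw [← sum_subset e1 (f := fun k => ∑ l ∈ range (K' + 1),
    (if k ≤ K ∧ l ≤ K then c k l else 0) * (z ^ k * (starRingEnd ℂ z) ^ l))]
  · refine sum_congr rfl fun k hk => ?_
    have hk' := mem_range.mp hk
    rw [← sum_subset e1]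
    · refine sum_congr rfl fun l hl => ?_
      have hl' := mem_range.mp hl
      rw [if_pos ⟨by omega, by omega⟩]
    · intro l _ hl
      rw [mem_range] at hl
      rw [if_neg (by omega), zero_mul]
  · intro k _ hk
    rw [mem_range] at hk
    refine sum_eq_zero fun l _ => ?_
    rw [if_neg (by omega), zero_mul]

lemma PB_avg {K : ℕ} {f g : ℂ → ℂ} (hf : PB K f) (hg : PB K g) : PB K (fun z => (f z + g z) / 2) := by
  obtain ⟨c, h1, h2⟩ := hf
  obtain ⟨d, g1, g2⟩ := hg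
  refine ⟨fun k l => (c k l + d k l) / 2, fun k l => ?_, fun z => ?_⟩
  · rw [norm_div]
    have := norm_add_le (c k l) (d k l)
    have h1' := h1 k l
    have g1' := g1 k l
    have e : ‖(2:ℂ)‖ = 2 := by norm_num
    rw [e]
    linarith
  · simp only [h2, g2, Fc]
    rw [← sum_add_distrib, sum_div]
    refine sum_congr rfl fun k _ => ?_
    rw [← sum_add_distrib, sum_div]
    refine sum_congr rfl fun l _ => ?_
    ring

lemma pf_eq (K : ℕ) (θ : ℝ) (z : ℂ) :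
    pf K θ z = NC K (θ / 2 * I) z * NC K (θ / 2 * I) (starRingEnd ℂ z) := rfl

/-- the polynomial in one variable -/
noncomputable def Pz (K : ℕ) (a θ₁ θ₂ : ℝ) (z : ℂ) : ℂ :=
  NC K a z * (NC K (θ₁ / 2 * I) z * NC K (θ₂ / 2 * I) z)

lemma norm_half {θ : ℝ} (h : |θ| ≤ 1) : ‖((θ:ℂ) / 2 * I)‖ ≤ 1 / 2 := by
  rw [norm_mul, Complex.norm_I, mul_one, norm_div, Complex.norm_real, Real.norm_eq_abs]
  have : ‖(2:ℂ)‖ = 2 := by norm_num
  rw [this]; linarith

lemma EP_Pz {n K : ℕ} {a θ₁ θ₂ : ℝ} (ha : |a| ≤ n) (h1 : |θ₁| ≤ 1) (h2 : |θ₂| ≤ 1) :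
    EP (3 * K) (n + 1) (Pz K a θ₁ θ₂) := by
  have e0 : ‖(a:ℂ)‖ ≤ (n:ℝ) := by rw [Complex.norm_real, Real.norm_eq_abs]; exact ha
  have e1 := EP_NC K (norm_half h1)
  have e2 := EP_NC K (norm_half h2)
  have e3 := (EP_NC K e0).mul (e1.mul e2 (by norm_num)) (Nat.cast_nonneg n)
  exact e3.mono (by omega) (by positivity) (by norm_num)

lemma BF_eq (K : ℕ) (a b θ₁ θ₂ : ℝ) (z : ℂ) :
    BF K a b θ₁ θ₂ z = Pz K a θ₁ θ₂ z * Pz K b θ₁ θ₂ (starRingEnd ℂ z) := by
  unfold BF pf Pz; ring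

lemma NC_conj_sym (K : ℕ) (a : ℂ) (z : ℂ) :
    NC K a (starRingEnd ℂ (starRingEnd ℂ z)) = NC K a z := by rw [Complex.conj_conj]

lemma pf_sym (K : ℕ) (θ : ℝ) (z : ℂ) : pf K θ (starRingEnd ℂ z) = pf K θ z := by
  unfold pf; rw [Complex.conj_conj, mul_comm]

lemma TD_sym (K : ℕ) (θ : ℝ) (z : ℂ) : TD K θ (starRingEnd ℂ z) = TD K θ z := by
  unfold TD; rw [Complex.conj_conj]; ring

lemma BF_sym (K : ℕ) (a θ₁ θ₂ : ℝ) : Sym (BF K a a θ₁ θ₂) := by
  intro z
  unfold BF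
  rw [pf_sym, pf_sym, Complex.conj_conj]; ring

lemma BB_sym (K R : ℕ) (a θ₁ θ₂ : ℝ) : Sym (BB K R a θ₁ θ₂) := by
  intro z
  unfold BB
  rw [BF_sym K a θ₁ θ₂ z, Complex.norm_conj]

lemma BE_sym (K : ℕ) (a θ₁ θ₂ : ℝ) : Sym (BE K a θ₁ θ₂) := by
  intro z
  unfold BE
  rw [TD_sym, TD_sym, Complex.conj_conj]; ring

lemma norm_pow_eq (R : ℕ) (z : ℂ) :
    (((‖z‖ / R) ^ (2 * R) : ℝ) : ℂ) = (z ^ R * ((R:ℂ) ^ R)⁻¹) * ((starRingEnd ℂ z) ^ R * ((R:ℂ) ^ R)⁻¹) := by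
  have h : ((‖z‖ ^ 2 : ℝ) : ℂ) = z * starRingEnd ℂ z := by
    rw [Complex.mul_conj, Complex.normSq_eq_norm_sq]
  rw [div_pow, pow_mul, Complex.ofReal_div, Complex.ofReal_pow, h, mul_pow]
  push_cast
  rw [two_mul, pow_add, div_eq_mul_inv, mul_inv]
  ring

lemma PB_BB {n K R : ℕ} (hK : n + 1 ≤ K) (hR : 1 ≤ R) {a θ₁ θ₂ : ℝ} (ha : |a| ≤ n) (h1 : |θ₁| ≤ 1)
    (h2 : |θ₂| ≤ 1) : PB (3 * K + R) (BB K R a θ₁ θ₂) := by
  obtain ⟨p, g1, g2, g3⟩ := EP_Pz (K := K) ha h1 h2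
  set m : Polynomial ℂ := p * Polynomial.X ^ R * Polynomial.C ((R:ℂ) ^ R)⁻¹ with hm
  have hd : m.natDegree ≤ 3 * K + R := by
    refine (Polynomial.natDegree_mul_C_le _ _).trans (Polynomial.natDegree_mul_le.trans (add_le_add g1 ?_))
    exact Polynomial.natDegree_X_pow_le _
  have hc : ∀ k, ‖m.coeff k‖ ≤ Real.exp (n + 1) := by
    intro k
    have hn : (0:ℝ) ≤ (n:ℝ) + 1 := by positivity
    by_cases hk : R ≤ k
    · rw [hm, Polynomial.coeff_mul_C, Polynomial.coeff_mul_X_pow', if_pos hk, norm_mul]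
      have e1 := (g2 (k - R)).trans (pow_div_le_exp hn (k - R))
      have e2 : ‖((R:ℂ) ^ R)⁻¹‖ ≤ 1 := by
        rw [norm_inv, norm_pow, Complex.norm_natCast]
        refine inv_le_one_of_one_le₀ (one_le_pow₀ ?_)
        exact_mod_cast hR
      calc ‖p.coeff (k - R)‖ * ‖((R:ℂ) ^ R)⁻¹‖ ≤ Real.exp (n + 1) * 1 :=
            mul_le_mul e1 e2 (norm_nonneg _) (Real.exp_pos _).le
        _ = _ := mul_one _
    · rw [hm, Polynomial.coeff_mul_C, Polynomial.coeff_mul_X_pow', if_neg hk, zero_mul, norm_zero]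
      positivity
  refine ⟨fun k l => m.coeff k * m.coeff l, fun k l => ?_, fun z => ?_⟩
  · rw [norm_mul]
    have hx : ((n:ℝ) + 1) + (n + 1) ≤ 0.69 * ((3 * K + R : ℕ) : ℝ) := by
      have e1 : ((n:ℝ) + 1) ≤ K := by exact_mod_cast hK
      have e2 : (1:ℝ) ≤ R := by exact_mod_cast hR
      push_cast
      linarith
    refine le_trans ?_ (exp_le_two_pow hx)
    rw [Real.exp_add]
    exact mul_le_mul (hc k) (hc l) (norm_nonneg _) (Real.exp_pos _).le
  · rw [← Fc_prod _ _ hd hd]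
    unfold BB
    rw [BF_eq, norm_pow_eq, g3, g3, hm]
    simp only [Polynomial.eval_mul, Polynomial.eval_pow, Polynomial.eval_X, Polynomial.eval_C]
    ring

/-- the monomial of the defect -/
noncomputable def Az (K : ℕ) (θ : ℝ) (z : ℂ) : ℂ := z * ((θ / 2 * I) ^ K / (K.factorial : ℂ) * z ^ K)

lemma TD_eq (K : ℕ) (θ : ℝ) (z : ℂ) : TD K θ z =
    (Az K θ z * NC K (θ / 2 * I) (starRingEnd ℂ z) + Az K θ (starRingEnd ℂ z) * NC K (θ / 2 * I) z) / 2 := rfl

lemma PB_BE {n K : ℕ} (hK : n + 1 ≤ K) {a θ₁ θ₂ : ℝ} (ha : |a| ≤ n) (h1 : |θ₁| ≤ 1)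
    (h2 : |θ₂| ≤ 1) : PB (3 * K + 2) (BE K a θ₁ θ₂) := by
  have hK1 : 1 ≤ K := by omega
  have e0 : ‖(a:ℂ)‖ ≤ (n:ℝ) := by rw [Complex.norm_real, Real.norm_eq_abs]; exact ha
  have eN := EP_NC K e0
  have eB1 := EP_NC K (norm_half h1)
  have eB2 := EP_NC K (norm_half h2)
  have eA1 := EP_mon K hK1 (norm_half h1)
  have eA2 := EP_mon K hK1 (norm_half h2)
  have n0 : (0:ℝ) ≤ n := Nat.cast_nonneg n
  have e1 : ((n:ℝ) + 1) ≤ K := by exact_mod_cast hK
  have k0 : (0:ℝ) ≤ K := Nat.cast_nonneg K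
  have hAA := (eN.mul (eA1.mul eA2 (by norm_num)) n0).mono (K' := 3 * K + 2) (by omega) (by positivity) le_rfl
  have hBB := (eN.mul (eB1.mul eB2 (by norm_num)) n0).mono (K' := 3 * K + 2) (by omega) (by positivity) le_rfl
  have hAB := (eN.mul (eA1.mul eB2 (by norm_num)) n0).mono (K' := 3 * K + 2) (by omega) (by positivity) le_rfl
  have hBA := (eN.mul (eB1.mul eA2 (by norm_num)) n0).mono (K' := 3 * K + 2) (by omega) (by positivity) le_rfl
  have q1 := PB_of_EP hAA hBB (by positivity) (by positivity) (by push_cast; linarith)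
  have q2 := PB_of_EP hBB hAA (by positivity) (by positivity) (by push_cast; linarith)
  have q3 := PB_of_EP hAB hBA (by positivity) (by positivity) (by push_cast; linarith)
  have q4 := PB_of_EP hBA hAB (by positivity) (by positivity) (by push_cast; linarith)
  have q := PB_avg (PB_avg q1 q2) (PB_avg q3 q4)
  obtain ⟨c, hc1, hc2⟩ := q
  refine ⟨c, hc1, fun z => ?_⟩
  rw [← hc2 z]
  unfold BE
  rw [TD_eq, TD_eq]
  unfold Az
  ring

theorem t_ALG : P_ALG := by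
  refine ⟨fun K S f hS h hf => ?_, fun K K' S f hK hS hf => ?_, fun K K' f hK hf => ?_, ?_⟩
  · obtain ⟨c, h1, h2⟩ := hf
    refine ⟨c, fun k l => (h1 k l).trans ?_, h2⟩
    have hx : S + S ≤ 0.69 * K := by linarith
    refine le_trans ?_ (exp_le_two_pow hx)
    rw [Real.exp_add]
    exact mul_le_mul (pow_div_le_exp hS k) (pow_div_le_exp hS l) (by positivity) (Real.exp_pos _).le
  · obtain ⟨c, h1, h2⟩ := hf
    refine ⟨fun k l => if k ≤ K ∧ l ≤ K then c k l else 0, fun k l => ?_, fun z => ?_⟩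
    · dsimp only
      split_ifs
      · exact h1 k l
      · rw [norm_zero]; positivity
    · rw [h2, Fc_ext hK]
  · obtain ⟨c, h1, h2⟩ := hf
    refine ⟨fun k l => if k ≤ K ∧ l ≤ K then c k l else 0, fun k l => ?_, fun z => ?_⟩
    · dsimp only
      split_ifs
      · exact (h1 k l).trans (pow_le_pow_right₀ (by norm_num) hK)
      · rw [norm_zero]; positivity
    · rw [h2, Fc_ext hK]
  · intro n K R a b θ₁ θ₂ hn hK hR ha hb h1 h2
    refine ⟨?_, PB_BB hK hR ha h1 h2, PB_BE hK ha h1 h2, BF_sym _ _ _ _, BB_sym _ _ _ _ _, BE_sym _ _ _ _⟩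
    have := EB_of_EP (EP_Pz (K := K) ha h1 h2) (EP_Pz (K := K) hb h1 h2) (by positivity)
    obtain ⟨c, hc1, hc2⟩ := this
    exact ⟨c, hc1, fun z => (BF_eq K a b θ₁ θ₂ z).trans (hc2 z)⟩

lemma wF_mul {x y : ℕ × ℕ} (h12 : Nat.Coprime x.1 y.2) (h21 : Nat.Coprime x.2 y.1) :
    wF (x * y) = wF x * wF y := by
  have hiff : x.1 * y.1 ∣ x.2 * y.2 ↔ x.1 ∣ x.2 ∧ y.1 ∣ y.2 := by
    constructor
    · intro h
      exact ⟨h12.dvd_of_dvd_mul_right ((Dvd.intro _ rfl).trans h),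
        h21.symm.dvd_of_dvd_mul_left ((Dvd.intro_left _ rfl).trans h)⟩
    · rintro ⟨h1, h2⟩; exact mul_dvd_mul h1 h2
  unfold wF
  simp only [Prod.fst_mul, Prod.snd_mul]
  by_cases h1 : x.1 ∣ x.2
  · by_cases h2 : y.1 ∣ y.2
    · rw [if_pos (hiff.mpr ⟨h1, h2⟩), if_pos h1, if_pos h2]
      push_cast; rw [one_div_mul_one_div]
    · rw [if_neg (fun h => h2 (hiff.mp h).2), if_neg h2, mul_zero]
  · rw [if_neg (fun h => h1 (hiff.mp h).1), if_neg h1, zero_mul]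

theorem t_WF : P_WF := by
  intro I J hIJ f g hf hg
  refine lam_mul fun x hx y hy => ?_
  have h := MI_coprime hIJ (hf x hx) (hg y hy)
  exact wF_mul h.2.1 h.2.2.1

end Pool.Agent.TH328.LK_ALG
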