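import Pool.Agent.TH806.LK.Defs

set_option autoImplicit false

/-!
LK project (helper806), job PRD: products of the local estimates over the blocks.
-/

namespace Pool.Agent.TH328.LK_PRD

open Finset Filter Topology MeasureTheory Complex
open Pool.Agent.W184.NZ
open Pool.Agent.TH806.LK

/-- the bound for the exponents -/
noncomputable def Mn (n : ℕ) : ℝ := 2 * ((n:ℝ) + 1) + ((n:ℝ) + 1) ^ 2

lemma Mn_nonneg (n : ℕ) : 0 ≤ Mn n := by unfold Mn; positivity

lemma norm_ab {n : ℕ} {a ϑ : ℝ} (ha : |a| ≤ n) (hϑ : |ϑ| ≤ 2) : ‖((a:ℂ) + ϑ / 2 * I)‖ ≤ (n:ℝ) + 1 := by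
  refine (norm_add_le _ _).trans (add_le_add ?_ ?_)
  · rw [Complex.norm_real, Real.norm_eq_abs]; exact ha
  · rw [norm_mul, Complex.norm_I, mul_one, norm_div, Complex.norm_real, Real.norm_eq_abs]
    have : ‖(2:ℂ)‖ = 2 := by norm_num
    rw [this]; linarith

lemma norm_ex {n : ℕ} {κ₁ κ₂ a b ϑ : ℝ} (k1 : 0 ≤ κ₁) (k1' : κ₁ ≤ 1) (k2 : 0 ≤ κ₂) (k2' : κ₂ ≤ 1)
    (ha : |a| ≤ n) (hb : |b| ≤ n) (hϑ : |ϑ| ≤ 2) : ‖ex κ₁ κ₂ a b ϑ‖ ≤ Mn n := by
  have e1 := norm_ab ha hϑ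
  have e2 := norm_ab hb hϑ
  have n0 : (0:ℝ) ≤ (n:ℝ) + 1 := by positivity
  unfold ex Mn
  refine (norm_add_le _ _).trans (add_le_add ?_ ?_)
  · refine (norm_add_le _ _).trans ?_
    rw [norm_mul, norm_mul, Complex.norm_real, Complex.norm_real, Real.norm_eq_abs, Real.norm_eq_abs,
      abs_of_nonneg k1, abs_of_nonneg k2]
    have h1 : κ₁ * ‖((a:ℂ) + ϑ / 2 * I)‖ ≤ 1 * ((n:ℝ) + 1) := mul_le_mul k1' e1 (norm_nonneg _) zero_le_one
    have h2 : κ₂ * ‖((b:ℂ) + ϑ / 2 * I)‖ ≤ 1 * ((n:ℝ) + 1) := mul_le_mul k2' e2 (norm_nonneg _) zero_le_one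
    linarith
  · rw [norm_mul, sq]
    exact mul_le_mul e1 e2 (norm_nonneg _) n0

lemma ex_re (κ a ϑ : ℝ) : (ex κ κ a a ϑ).re = 2 * κ * a + a ^ 2 - ϑ ^ 2 / 4 := by
  have : ex κ κ a a ϑ = ((2 * κ * a + a ^ 2 - ϑ ^ 2 / 4 : ℝ) : ℂ) + ((κ * ϑ + a * ϑ : ℝ) : ℂ) * I := by
    unfold ex
    push_cast
    have hI := Complex.I_sq
    linear_combination (ϑ ^ 2 / 4 : ℂ) * hI
  rw [this, Complex.add_re, Complex.ofReal_re, Complex.mul_I_re, Complex.ofReal_im, neg_zero, add_zero]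

lemma ex_F (k ϑ : ℝ) : ex 0 1 (k - 1) k ϑ = ((k:ℂ) + ϑ / 2 * I) ^ 2 := by
  unfold ex
  push_cast
  ring

lemma sum_erase_le {J : ℕ} {i₀ : ℕ} (f : ℕ → ℝ) (hf : ∀ i, 0 ≤ f i) :
    ∑ i ∈ (range J).erase i₀, f i ≤ ∑ i ∈ range J, f i :=
  sum_le_sum_of_subset_of_nonneg (erase_subset _ _) (fun i _ _ => hf i)

theorem t_PRD (hL : P_LOC) : P_PRD := by
  intro n c C hn hc
  obtain ⟨C', hC', H⟩ := hL n c C hn hc
  set M := Mn n with hM
  have hM0 : 0 ≤ M := Mn_nonneg n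
  set D := C' * Real.exp (M * c) with hD
  have hD0 : 0 < D := by positivity
  have hsum : ∀ (J Rs : ℕ) (I : ℕ → Finset ℕ) (b : ℕ → ℝ), Rg c J I b →
      ∑ i ∈ range J, (uI (I i) + Real.exp (-(RR Rs i : ℝ))) ≤
        (∑ i ∈ range J, uI (I i)) + 2 * Real.exp (-(Rs:ℝ)) := by
    intro J Rs I b h
    rw [sum_add_distrib]
    have := sum_exp_le J Rs (RR_ge Rs)
    linarith
  obtain ⟨R₀, hR₀⟩ : ∃ R₀ : ℕ, 20 * (D + 1) ≤ (R₀:ℝ) := ⟨⌈20 * (D + 1)⌉₊, Nat.le_ceil _⟩
  refine ⟨(1 + C') * Real.exp (M * c + D * (c + 2)), by positivity, 1 / (10 * (D + 1)), by positivity, R₀, ?_⟩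
  intro J Rs I b ν hRg hRs
  have hv : ∀ i < J, vI (I i) ≤ c := fun i hi => hRg.v i hi
  have hu : ∀ i < J, uI (I i) ≤ c := fun i hi => hRg.u hi
  have hRR : ∀ i, 1 ≤ RR Rs i := fun i => by unfold RR; omega
  have hϑ : ∀ θ₁ θ₂ : ℝ, |θ₁| ≤ 1 → |θ₂| ≤ 1 → |θ₁ + θ₂| ≤ 2 := fun θ₁ θ₂ h1 h2 => by
    have := abs_add_le θ₁ θ₂; linarith
  refine ⟨?_, ?_⟩
  · intro w κ hκ0 hκ1 hLW a θ₁ θ₂ ha h1 h2
    set s : ℝ := 2 * κ * a + a ^ 2 - (θ₁ + θ₂) ^ 2 / 4 with hs
    have hsM : |s| ≤ M := by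
      rw [hs, ← ex_re]
      exact (Complex.abs_re_le_norm _).trans (norm_ex hκ0 hκ1 hκ0 hκ1 ha ha (hϑ _ _ h1 h2))
    set L : ℕ → ℝ := fun i => ‖∫ q, q.2 * BF (KK n Rs i) a a θ₁ θ₂ q.1 ∂(ν i)‖ with hLdef
    have hL1 : ∀ i < J, L i ≤ Real.exp (s * vI (I i) + D * (uI (I i) + Real.exp (-(RR Rs i : ℝ)))) := by
      intro i hi
      have h3 := (H w κ κ (I i) (ν i) hκ0 hκ1 hκ0 hκ1 (hLW i hi) (hv i hi) (hu i hi) (RR Rs i) (hRR i) a a θ₁ θ₂
        ha ha h1 h2).1
      have v0 := vI_nonneg (I i)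
      have u0 := uI_nonneg (I i)
      have h4 : L i ≤ Real.exp (s * vI (I i)) + C' * (uI (I i) + Real.exp (-(RR Rs i : ℝ))) := by
        have h5 : ‖Complex.exp (ex κ κ a a (θ₁ + θ₂) * vI (I i))‖ = Real.exp (s * vI (I i)) := by
          rw [Complex.norm_exp]
          congr 1
          rw [Complex.re_mul_ofReal, ex_re]
        calc L i = ‖((∫ q, q.2 * BF (KK n Rs i) a a θ₁ θ₂ q.1 ∂(ν i)) -
              Complex.exp (ex κ κ a a (θ₁ + θ₂) * vI (I i))) + Complex.exp (ex κ κ a a (θ₁ + θ₂) * vI (I i))‖ := by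
                rw [sub_add_cancel]
          _ ≤ C' * (uI (I i) + Real.exp (-(RR Rs i : ℝ))) + Real.exp (s * vI (I i)) := by
              refine (norm_add_le _ _).trans (add_le_add h3 h5.le)
          _ = _ := by ring
      have h6 : 1 ≤ Real.exp (M * c) * Real.exp (s * vI (I i)) := by
        rw [← Real.exp_add]
        refine Real.one_le_exp ?_
        have h7 : |s * vI (I i)| ≤ M * c := by
          rw [abs_mul, abs_of_nonneg v0]
          exact mul_le_mul hsM (hv i hi) v0 hM0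
        have := neg_abs_le (s * vI (I i))
        linarith
      set t := uI (I i) + Real.exp (-(RR Rs i : ℝ)) with ht
      have ht0 : 0 ≤ t := by positivity
      calc L i ≤ Real.exp (s * vI (I i)) + C' * t := h4
        _ ≤ Real.exp (s * vI (I i)) + C' * t * (Real.exp (M * c) * Real.exp (s * vI (I i))) := by
            have : C' * t * 1 ≤ C' * t * (Real.exp (M * c) * Real.exp (s * vI (I i))) :=
              mul_le_mul_of_nonneg_left h6 (by positivity)
            linarith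
        _ = Real.exp (s * vI (I i)) * (D * t + 1) := by rw [hD]; ring
        _ ≤ Real.exp (s * vI (I i)) * Real.exp (D * t) :=
            mul_le_mul_of_nonneg_left (Real.add_one_le_exp _) (Real.exp_pos _).le
        _ = _ := by rw [← Real.exp_add]
    have hu2 : D * ∑ i ∈ range J, (uI (I i) + Real.exp (-(RR Rs i : ℝ))) ≤ D * (c + 2) := by
      refine mul_le_mul_of_nonneg_left ((hsum J Rs I b hRg).trans ?_) hD0.le
      have h8 : Real.exp (-(Rs:ℝ)) ≤ 1 := Real.exp_le_one_iff.mpr (by simp)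
      have := hRg.U
      linarith
    have hA1 : ∏ i ∈ range J, L i ≤ Real.exp (D * (c + 2)) * Real.exp (s * VV I J) := by
      refine (prod_le_prod (fun i _ => norm_nonneg _) (fun i hi => hL1 i (mem_range.mp hi))).trans ?_
      rw [← Real.exp_sum, sum_add_distrib, ← mul_sum, ← mul_sum, ← Real.exp_add]
      refine Real.exp_le_exp.mpr ?_
      unfold VV
      linarith
    have hA2 : ∀ i₀ < J, ∏ i ∈ (range J).erase i₀, L i ≤
        Real.exp (M * c + D * (c + 2)) * Real.exp (s * VV I J) := by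
      intro i₀ hi₀
      refine (prod_le_prod (fun i _ => norm_nonneg _)
        (fun i hi => hL1 i (mem_range.mp (mem_of_mem_erase hi)))).trans ?_
      rw [← Real.exp_sum, sum_add_distrib, ← mul_sum, ← mul_sum, ← Real.exp_add]
      refine Real.exp_le_exp.mpr ?_
      have e1 : ∑ i ∈ (range J).erase i₀, vI (I i) + vI (I i₀) = VV I J :=
        sum_erase_add (range J) (fun i => vI (I i)) (mem_range.mpr hi₀)
      have e2 : ∑ i ∈ (range J).erase i₀, (uI (I i) + Real.exp (-(RR Rs i : ℝ))) ≤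
          ∑ i ∈ range J, (uI (I i) + Real.exp (-(RR Rs i : ℝ))) :=
        sum_erase_le _ (fun i => by have := uI_nonneg (I i); positivity)
      have e3 := mul_le_mul_of_nonneg_left e2 hD0.le
      have e4 : |s * vI (I i₀)| ≤ M * c := by
        rw [abs_mul, abs_of_nonneg (vI_nonneg _)]
        exact mul_le_mul hsM (hv i₀ hi₀) (vI_nonneg _) hM0
      have e5 := neg_abs_le (s * vI (I i₀))
      have e6 : s * ∑ i ∈ (range J).erase i₀, vI (I i) = s * VV I J - s * vI (I i₀) := by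
        rw [← e1]; ring
      rw [e6]
      linarith
    have hX0 : 0 < Real.exp (s * VV I J) := Real.exp_pos _
    have hE0 : 0 < Real.exp (M * c + D * (c + 2)) := Real.exp_pos _
    refine ⟨hA1.trans ?_, fun i₀ hi₀ => ⟨(hA2 i₀ hi₀).trans ?_, ?_, ?_⟩⟩
    · refine mul_le_mul_of_nonneg_right ?_ hX0.le
      have : Real.exp (D * (c + 2)) ≤ Real.exp (M * c + D * (c + 2)) :=
        Real.exp_le_exp.mpr (by have := mul_nonneg hM0 hc; linarith)
      nlinarith
    · refine mul_le_mul_of_nonneg_right ?_ hX0.le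
      nlinarith
    · have hB := (H w κ κ (I i₀) (ν i₀) hκ0 hκ1 hκ0 hκ1 (hLW i₀ hi₀) (hv i₀ hi₀) (hu i₀ hi₀) (RR Rs i₀) (hRR i₀)
        a a θ₁ θ₂ ha ha h1 h2).2.1
      refine (mul_le_mul hB (hA2 i₀ hi₀) (prod_nonneg fun i _ => norm_nonneg _) (by positivity)).trans ?_
      have hR0 := Real.exp_pos (-(RR Rs i₀ : ℝ))
      have : C' * Real.exp (M * c + D * (c + 2)) ≤ (1 + C') * Real.exp (M * c + D * (c + 2)) := by nlinarith
      calc C' * Real.exp (-(RR Rs i₀ : ℝ)) * (Real.exp (M * c + D * (c + 2)) * Real.exp (s * VV I J))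
          = Real.exp (-(RR Rs i₀ : ℝ)) * (C' * Real.exp (M * c + D * (c + 2)) * Real.exp (s * VV I J)) := by ring
        _ ≤ _ := by gcongr
    · have hB := (H w κ κ (I i₀) (ν i₀) hκ0 hκ1 hκ0 hκ1 (hLW i₀ hi₀) (hv i₀ hi₀) (hu i₀ hi₀) (RR Rs i₀) (hRR i₀)
        a a θ₁ θ₂ ha ha h1 h2).2.2
      refine (mul_le_mul hB (hA2 i₀ hi₀) (prod_nonneg fun i _ => norm_nonneg _) (by positivity)).trans ?_
      have hR0 := Real.exp_pos (-(RR Rs i₀ : ℝ))
      have : C' * Real.exp (M * c + D * (c + 2)) ≤ (1 + C') * Real.exp (M * c + D * (c + 2)) := by nlinarith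
      calc C' * Real.exp (-(RR Rs i₀ : ℝ)) * (Real.exp (M * c + D * (c + 2)) * Real.exp (s * VV I J))
          = Real.exp (-(RR Rs i₀ : ℝ)) * (C' * Real.exp (M * c + D * (c + 2)) * Real.exp (s * VV I J)) := by ring
        _ ≤ _ := by gcongr
  · intro hLW hR hU k θ₁ θ₂ hk h1 h2
    have hk1 : |k - 1| ≤ (n:ℝ) := by
      have := abs_sub k 1
      rw [abs_one] at this
      linarith
    have hk2 : |k| ≤ (n:ℝ) := by linarith
    have hϑ' := hϑ θ₁ θ₂ h1 h2
    set e : ℕ → ℂ := fun i => (∫ q, q.2 * BF (KK n Rs i) (k - 1) k θ₁ θ₂ q.1 ∂(ν i)) *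
      Complex.exp (-(ex 0 1 (k - 1) k (θ₁ + θ₂) * vI (I i))) - 1 with he
    have hfac : ∀ i, ∫ q, q.2 * BF (KK n Rs i) (k - 1) k θ₁ θ₂ q.1 ∂(ν i) =
        Complex.exp (ex 0 1 (k - 1) k (θ₁ + θ₂) * vI (I i)) * (1 + e i) := by
      intro i
      simp only [he]
      rw [add_sub_cancel, mul_comm, mul_assoc, ← Complex.exp_add, neg_add_cancel, Complex.exp_zero, mul_one]
    have hei : ∀ i < J, ‖e i‖ ≤ D * (uI (I i) + Real.exp (-(RR Rs i : ℝ))) := by
      intro i hi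
      have h3 := (H wF 0 1 (I i) (ν i) le_rfl zero_le_one zero_le_one le_rfl (hLW i hi) (hv i hi) (hu i hi)
        (RR Rs i) (hRR i) (k - 1) k θ₁ θ₂ hk1 hk2 h1 h2).1
      have h4 : e i = ((∫ q, q.2 * BF (KK n Rs i) (k - 1) k θ₁ θ₂ q.1 ∂(ν i)) -
          Complex.exp (ex 0 1 (k - 1) k (θ₁ + θ₂) * vI (I i))) *
          Complex.exp (-(ex 0 1 (k - 1) k (θ₁ + θ₂) * vI (I i))) := by
        rw [sub_mul, ← Complex.exp_add, add_neg_cancel, Complex.exp_zero]
      have h5 : ‖Complex.exp (-(ex 0 1 (k - 1) k (θ₁ + θ₂) * vI (I i)))‖ ≤ Real.exp (M * c) := by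
        rw [Complex.norm_exp]
        refine Real.exp_le_exp.mpr ((Complex.re_le_norm _).trans ?_)
        rw [norm_neg, norm_mul, Complex.norm_real, Real.norm_eq_abs, abs_of_nonneg (vI_nonneg _)]
        exact mul_le_mul (norm_ex le_rfl zero_le_one zero_le_one le_rfl hk1 hk2 hϑ') (hv i hi) (vI_nonneg _) hM0
      rw [h4, norm_mul]
      have u0 := uI_nonneg (I i)
      calc _ ≤ (C' * (uI (I i) + Real.exp (-(RR Rs i : ℝ)))) * Real.exp (M * c) :=
            mul_le_mul h3 h5 (norm_nonneg _) (by positivity)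
        _ = _ := by rw [hD]; ring
    refine ⟨(∏ i ∈ range J, (1 + e i)) - 1, ?_, ?_⟩
    · refine (Finset.norm_prod_one_add_sub_one_le (range J) e).trans ?_
      have h3 : ∑ i ∈ range J, ‖e i‖ ≤ 1 / 5 := by
        calc ∑ i ∈ range J, ‖e i‖ ≤ ∑ i ∈ range J, D * (uI (I i) + Real.exp (-(RR Rs i : ℝ))) :=
              sum_le_sum fun i hi => hei i (mem_range.mp hi)
          _ ≤ D * ((∑ i ∈ range J, uI (I i)) + 2 * Real.exp (-(Rs:ℝ))) := by
              rw [← mul_sum]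
              exact mul_le_mul_of_nonneg_left (hsum J Rs I b hRg) hD0.le
          _ ≤ D * (1 / (10 * (D + 1)) + 2 * (1 / (20 * (D + 1)))) := by
              refine mul_le_mul_of_nonneg_left (add_le_add hU ?_) hD0.le
              refine mul_le_mul_of_nonneg_left ?_ (by norm_num)
              rw [Real.exp_neg, one_div]
              refine inv_anti₀ (by positivity) ?_
              have h5 : (R₀:ℝ) ≤ Rs := by exact_mod_cast hR
              have h6 := Real.add_one_le_exp (Rs:ℝ)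
              linarith
          _ = (1 / 5) * (D / (D + 1)) := by field_simp; ring
          _ ≤ (1 / 5) * 1 := by
              refine mul_le_mul_of_nonneg_left ?_ (by norm_num)
              rw [div_le_one (by positivity)]; linarith
          _ = 1 / 5 := mul_one _
      have h4 : Real.exp (∑ i ∈ range J, ‖e i‖) ≤ Real.exp (1 / 5) := Real.exp_le_exp.mpr h3
      have h5 : Real.exp (1 / 5) ≤ 5 / 4 := by
        have h6 : Real.exp (1 / 5) ^ 5 = Real.exp 1 := by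
          rw [← Real.exp_nat_mul]; norm_num
        have h7 := Real.exp_one_lt_d9
        by_contra hcon
        push Not at hcon
        have h8 : (5 / 4 : ℝ) ^ 5 < Real.exp (1 / 5) ^ 5 := pow_lt_pow_left₀ hcon (by norm_num) (by norm_num)
        rw [h6] at h8
        norm_num at h8
        linarith
      linarith
    · rw [prod_congr rfl (fun i _ => hfac i), prod_mul_distrib, ← Complex.exp_sum, ← mul_sum]
      have h3 : ((VV I J : ℝ) : ℂ) = ∑ i ∈ range J, ((vI (I i) : ℝ) : ℂ) := by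
        unfold VV; push_cast; rfl
      rw [← h3, ex_F]
      congr 2
      · push_cast; ring
      · ring

end Pool.Agent.TH328.LK_PRD
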